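import Pool.Agent.KS6_29.PW.Weyl

/-!
Operators which act as scalars on pairwise orthogonal blocks of a copy of `ℓ₂`.
-/

set_option autoImplicit false

namespace Pool.Agent.KS6_29.PW

open W700.PS Filter Topology

/-- an isomorphic copy of `ℓ₂` in `E` with coordinate functionals -/
structure Cop (E : Type) [NormedAddCommGroup E] [NormedSpace ℂ E] where
  psi : L2 →L[ℂ] E
  K : ℝ
  K_pos : 0 < K
  norm_psi : ∀ h, ‖psi h‖ ≤ K * ‖h‖
  le_psi : ∀ h, ‖h‖ ≤ ‖psi h‖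
  f : ℕ → (E →L[ℂ] ℂ)
  norm_f : ∀ j, ‖f j‖ ≤ 1
  f_psi : ∀ (j : ℕ) (h : L2), f j (psi h) = h j

section
variable {E : Type} [NormedAddCommGroup E] [NormedSpace ℂ E]

theorem exists_cop_of (psi : L2 →L[ℂ] E) (hpsi : ∀ h, ‖h‖ ≤ ‖psi h‖) :
    ∃ P : Cop E, P.psi = psi := by
  have hanti : AntilipschitzWith 1 psi := by
    refine AddMonoidHomClass.antilipschitz_of_bound psi fun t => ?_
    rw [NNReal.coe_one, one_mul]
    exact hpsi t
  have hcl : IsClosed (Set.range psi) := hanti.isClosed_range psi.uniformContinuous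
  have hf : ∀ j : ℕ, ∃ f : E →L[ℂ] ℂ, ‖f‖ ≤ 1 ∧ ∀ h : L2, f (psi h) = h j := by
    intro j
    let p : Submodule ℂ E := LinearMap.range (psi : L2 →ₗ[ℂ] E)
    have hsurj : ∀ y : p, ∃ h : L2, psi h = y := fun y => y.2
    let e : L2 ≃ₗ[ℂ] p := LinearEquiv.ofInjective (psi : L2 →ₗ[ℂ] E) hanti.injective
    have he : ∀ h : L2, ((e h : p) : E) = psi h := fun h => rfl
    let f0 : p →L[ℂ] ℂ := LinearMap.mkContinuous
      { toFun := fun y => (e.symm y : L2) j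
        map_add' := fun x y => by rw [map_add]; rfl
        map_smul' := fun r y => by rw [map_smul]; rfl } 1
      (fun y => by
        show ‖(e.symm y : L2) j‖ ≤ 1 * ‖y‖
        rw [one_mul]
        refine (lp.norm_apply_le_norm (by simp) _ j).trans ?_
        refine (hpsi _).trans (le_of_eq ?_)
        rw [← he, LinearEquiv.apply_symm_apply]
        rfl)
    have hf0 : ‖f0‖ ≤ 1 := LinearMap.mkContinuous_norm_le _ (by norm_num) _
    obtain ⟨f, hf1, hf2⟩ := exists_extension_norm_eq p f0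
    refine ⟨f, by rw [hf2]; exact hf0, fun h => ?_⟩
    have h1 := hf1 (e h)
    rw [he] at h1
    rw [h1]
    show (e.symm (e h) : L2) j = h j
    rw [LinearEquiv.symm_apply_apply]
  choose f hf1 hf2 using hf
  refine ⟨⟨psi, ‖psi‖ + 1, by positivity, fun h => ?_, hpsi, f, hf1, hf2⟩, rfl⟩
  refine (psi.le_opNorm h).trans ?_
  have := norm_nonneg h
  nlinarith

/-- the criterion for an isomorphic copy -/
theorem exists_cop (psi : L2 →L[ℂ] E) {c : ℝ} (hc : 0 < c) (hpsi : ∀ h, c * ‖h‖ ≤ ‖psi h‖) :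
    Nonempty (Cop E) := by
  obtain ⟨P, -⟩ := exists_cop_of (((c⁻¹ : ℝ) : ℂ) • psi) (fun h => by
    rw [smul_apply, norm_smul, Complex.norm_of_nonneg (by positivity),
      le_inv_mul_iff₀ hc]
    exact hpsi h)
  exact ⟨P⟩

/-- number of coordinates of the block `j` -/
def NN (j : ℕ) : ℕ := 4 ^ (j ^ 2)

/-- the coordinates of the block `j` -/
def ix (j i : ℕ) : ℕ := Nat.pair j i + 1

theorem ix_inj {j i j' i' : ℕ} (h : ix j i = ix j' i') : j = j' ∧ i = i' := by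
  unfold ix at h
  exact Nat.pair_eq_pair.1 (Nat.succ_injective h)

theorem ix_ne_zero (j i : ℕ) : ix j i ≠ 0 := Nat.succ_ne_zero _

/-- basis vectors of the blocks -/
noncomputable def ee (j i : ℕ) : L2 := lp.single 2 (ix j i) (1 : ℂ)

theorem ee_apply (j i m : ℕ) : (ee j i : L2) m = if m = ix j i then 1 else 0 := by
  unfold ee
  by_cases h : m = ix j i
  · subst h; simp
  · rw [if_neg h, lp.single_apply_ne _ _ _ h]

theorem norm_ee (j i : ℕ) : ‖ee j i‖ = 1 := by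
  unfold ee
  rw [lp.norm_single (by norm_num)]
  simp

theorem orthonormal_ee (j : ℕ) : Orthonormal ℂ (fun i : Fin (NN j) => ee j i) := by
  rw [orthonormal_iff_ite]
  intro i i'
  unfold ee
  rw [lp.inner_single_left]
  by_cases h : i = i'
  · subst h; simp
  · rw [if_neg h, lp.single_apply_ne]
    · simp
    · intro h'; exact h (Fin.ext (ix_inj h').2)

theorem norm_sum_ee (j : ℕ) (x : Fin (NN j) → ℂ) :
    ‖∑ i : Fin (NN j), x i • ee j i‖ = Real.sqrt (∑ i, ‖x i‖ ^ 2) := by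
  have h1 : ‖∑ i : Fin (NN j), x i • ee j i‖ ^ 2 = ∑ i, ‖x i‖ ^ 2 := by
    have h2 := Orthonormal.inner_sum (orthonormal_ee j) x x Finset.univ
    rw [@norm_sq_eq_re_inner ℂ, h2, map_sum]
    refine Finset.sum_congr rfl fun j _ => ?_
    rw [RCLike.conj_mul]
    norm_cast
  rw [← h1, Real.sqrt_sq (norm_nonneg _)]

theorem sqrt_NN (j : ℕ) : Real.sqrt (NN j : ℝ) = 2 ^ (j ^ 2) := by
  unfold NN
  rw [show ((4 ^ (j ^ 2) : ℕ) : ℝ) = (2 ^ (j ^ 2)) ^ 2 by
    push_cast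
    rw [← pow_mul, mul_comm, pow_mul]; norm_num]
  exact Real.sqrt_sq (by positivity)

variable (P : Cop E)

/-- normalised projections on the blocks -/
noncomputable def qq (j : ℕ) : E →L[ℂ] E :=
  (((2 : ℂ) ^ (j ^ 2))⁻¹) • ∑ i : Fin (NN j), (P.f (ix j i)).smulRight (P.psi (ee j i))

theorem qq_apply (j : ℕ) (x : E) : qq P j x =
    (((2 : ℂ) ^ (j ^ 2))⁻¹) • P.psi (∑ i : Fin (NN j), P.f (ix j i) x • ee j i) := by
  unfold qq
  rw [map_sum]
  simp [ContinuousLinearMap.smulRight_apply]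

theorem qq_mem (j : ℕ) : qq P j ∈ FRk E :=
  (FRk E).smul_mem _ (Submodule.sum_mem _ fun _ _ => Submodule.subset_span ⟨_, _, rfl⟩)

theorem norm_qq (j : ℕ) : ‖qq P j‖ ≤ P.K := by
  refine ContinuousLinearMap.opNorm_le_bound _ P.K_pos.le fun x => ?_
  rw [qq_apply, norm_smul]
  have h0 := P.norm_psi (∑ i : Fin (NN j), P.f (ix j i) x • ee j i)
  rw [norm_sum_ee] at h0
  have h1 : ∑ i : Fin (NN j), ‖P.f (ix j i) x‖ ^ 2 ≤ NN j * ‖x‖ ^ 2 := by
    refine (Finset.sum_le_card_nsmul _ _ (‖x‖ ^ 2) fun i _ => ?_).trans (by simp)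
    have h2 : ‖P.f (ix j i) x‖ ≤ ‖x‖ :=
      ((P.f (ix j i)).le_opNorm x).trans (mul_le_of_le_one_left (norm_nonneg _) (P.norm_f _))
    gcongr
  have h3 : Real.sqrt (∑ i : Fin (NN j), ‖P.f (ix j i) x‖ ^ 2) ≤ 2 ^ (j ^ 2) * ‖x‖ := by
    refine (Real.sqrt_le_sqrt h1).trans ?_
    rw [Real.sqrt_mul (Nat.cast_nonneg _), sqrt_NN, Real.sqrt_sq (norm_nonneg _)]
  have h4 : ‖(((2 : ℂ) ^ (j ^ 2))⁻¹)‖ = ((2 : ℝ) ^ (j ^ 2))⁻¹ := by
    rw [norm_inv, norm_pow]; norm_num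
  rw [h4, inv_mul_le_iff₀ (by positivity)]
  refine h0.trans ?_
  have := P.K_pos
  nlinarith

/-- `u` acts as the scalar `μ` on the block `j` -/
def Acts (u : E →L[ℂ] E) (j : ℕ) (μ : ℂ) : Prop :=
  ∀ i : ℕ, i < NN j → u (P.psi (ee j i)) = μ • P.psi (ee j i)

theorem acts_qq_self (j : ℕ) : Acts P (qq P j) j (((2 : ℂ) ^ (j ^ 2))⁻¹) := by
  intro i hi
  rw [qq_apply]
  congr 2
  rw [Finset.sum_eq_single (⟨i, hi⟩ : Fin (NN j))]
  · rw [P.f_psi, ee_apply, if_pos rfl, one_smul]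
  · intro i' _ hi'
    rw [P.f_psi, ee_apply, if_neg, zero_smul]
    intro h
    exact hi' (Fin.ext (ix_inj h).2)
  · intro h; exact absurd (Finset.mem_univ _) h

theorem acts_qq_ne (j j' : ℕ) (h : j ≠ j') : Acts P (qq P j) j' 0 := by
  intro i hi
  rw [qq_apply, zero_smul, Finset.sum_eq_zero, map_zero, smul_zero]
  intro i' _
  rw [P.f_psi, ee_apply, if_neg, zero_smul]
  intro h'
  exact h (ix_inj h').1

theorem qq_psi_zero (j : ℕ) : qq P j (P.psi (lp.single 2 0 (1 : ℂ))) = 0 := by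
  rw [qq_apply, Finset.sum_eq_zero, map_zero, smul_zero]
  intro i' _
  rw [P.f_psi, lp.single_apply_ne _ _ _ (ix_ne_zero _ _), zero_smul]

variable {P}

theorem Acts.add {u v : E →L[ℂ] E} {j : ℕ} {μ ν : ℂ} (hu : Acts P u j μ) (hv : Acts P v j ν) :
    Acts P (u + v) j (μ + ν) := by
  intro i hi
  rw [add_apply, hu i hi, hv i hi, add_smul]

theorem Acts.smul {u : E →L[ℂ] E} {j : ℕ} {μ : ℂ} (r : ℂ) (hu : Acts P u j μ) :
    Acts P (r • u) j (r * μ) := by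
  intro i hi
  rw [smul_apply, hu i hi, mul_smul]

theorem Acts.pow {u : E →L[ℂ] E} {j : ℕ} {μ : ℂ} (hu : Acts P u j μ) (n : ℕ) :
    Acts P (u ^ n) j (μ ^ n) := by
  induction n with
  | zero => intro i hi; simp
  | succ n ih =>
    intro i hi
    rw [pow_succ, mul_apply_eq_comp, hu i hi, map_smul, ih i hi, smul_smul, pow_succ,
      mul_comm]

theorem Acts.sum {ι : Type} (s : Finset ι) (u : ι → E →L[ℂ] E) (j : ℕ) (μ : ι → ℂ)
    (hu : ∀ i ∈ s, Acts P (u i) j (μ i)) : Acts P (∑ i ∈ s, u i) j (∑ i ∈ s, μ i) := by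
  classical
  induction s using Finset.induction_on with
  | empty => intro i hi; simp
  | insert a s ha ih =>
    rw [Finset.sum_insert ha, Finset.sum_insert ha]
    exact (hu a (Finset.mem_insert_self _ _)).add
      (ih fun i hi => hu i (Finset.mem_insert_of_mem hi))

/-- lower bound -/
theorem Acts.norm_le {u : E →L[ℂ] E} {j : ℕ} {μ : ℂ} (hu : Acts P u j μ) {K : ℕ} {δ : ℝ}
    (hS : Sn K δ u) (hK : K < NN j) : ‖μ‖ ≤ P.K * δ := by
  have hKp := P.K_pos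
  let B : EuclideanSpace ℂ (Fin (NN j)) →ₗ[ℂ] E :=
    { toFun := fun x => P.psi (∑ i : Fin (NN j), x i • ((P.K⁻¹ : ℝ) : ℂ) • ee j i)
      map_add' := fun x y => by
        rw [← map_add, ← Finset.sum_add_distrib]
        congr 1
        exact Finset.sum_congr rfl fun i _ => by simp [add_smul]
      map_smul' := fun r x => by
        rw [RingHom.id_apply, ← map_smul, Finset.smul_sum]
        congr 1
        exact Finset.sum_congr rfl fun i _ => by simp [smul_smul, mul_assoc] }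
  have hB : ∀ x, B x = P.psi (∑ i : Fin (NN j), x i • ((P.K⁻¹ : ℝ) : ℂ) • ee j i) := fun x => rfl
  have hn : ∀ x : EuclideanSpace ℂ (Fin (NN j)),
      ‖∑ i : Fin (NN j), x i • ((P.K⁻¹ : ℝ) : ℂ) • ee j i‖ = P.K⁻¹ * ‖x‖ := by
    intro x
    have e1 : ∑ i : Fin (NN j), x i • ((P.K⁻¹ : ℝ) : ℂ) • ee j i =
        ((P.K⁻¹ : ℝ) : ℂ) • ∑ i : Fin (NN j), x i • ee j i := by
      rw [Finset.smul_sum]
      exact Finset.sum_congr rfl fun i _ => smul_comm _ _ _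
    rw [e1, norm_smul, norm_sum_ee, EuclideanSpace.norm_eq, Complex.norm_of_nonneg (by positivity)]
  obtain ⟨V, hV, hVb⟩ := hS (EuclideanSpace ℂ (Fin (NN j))) B (fun x => by
    rw [hB]
    refine (P.norm_psi _).trans (le_of_eq ?_)
    rw [hn, mul_inv_cancel_left₀ hKp.ne'])
  have h1 : 0 < Module.finrank ℂ V := by
    have : Module.finrank ℂ (EuclideanSpace ℂ (Fin (NN j))) = NN j := by simp
    omega
  obtain ⟨x, hx⟩ : ∃ x : V, x ≠ 0 := by
    have : Nontrivial V := Module.nontrivial_of_finrank_pos h1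
    exact exists_ne 0
  have h2 := hVb x x.2
  have hμ : ∀ x, u (B x) = μ • B x := by
    intro x
    rw [hB, map_sum, map_sum, Finset.smul_sum]
    refine Finset.sum_congr rfl fun i _ => ?_
    rw [map_smul, map_smul, map_smul, map_smul, hu i i.2, smul_comm μ, smul_comm μ]
  rw [hμ, norm_smul] at h2
  have h3 : 0 < ‖(x : EuclideanSpace ℂ (Fin (NN j)))‖ := by
    rw [norm_pos_iff]
    intro h
    exact hx (Subtype.ext h)
  have h4 : P.K⁻¹ * ‖(x : EuclideanSpace ℂ (Fin (NN j)))‖ ≤ ‖B x‖ := by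
    rw [hB, ← hn]
    exact P.le_psi _
  have h5 : ‖μ‖ * (P.K⁻¹ * ‖(x : EuclideanSpace ℂ (Fin (NN j)))‖) ≤
      δ * ‖(x : EuclideanSpace ℂ (Fin (NN j)))‖ :=
    (mul_le_mul_of_nonneg_left h4 (norm_nonneg _)).trans h2
  have h6 : ‖μ‖ * P.K⁻¹ ≤ δ := by
    rw [← mul_assoc] at h5
    exact le_of_mul_le_mul_right h5 h3
  rw [← div_eq_mul_inv, div_le_iff₀ hKp] at h6
  linarith

theorem contra {n c R : ℕ} {D : ℝ} {u : E →L[ℂ] E} (hu : WD (n + 1) c R D u)
    {J : Set ℕ} (hJ : J.Infinite) {κ : ℝ} (hκ : 0 < κ)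
    (hact : ∀ j ∈ J, ∃ μ : ℂ, Acts P u j μ ∧ κ * ((1 / 2) ^ j / 2 ^ (j ^ 2)) ^ n ≤ ‖μ‖) : False := by
  set L : ℝ := Real.sqrt (2 * (c + 1)) with hL
  have hLpos : 0 < L := Real.sqrt_pos.2 (by positivity)
  have hKp := P.K_pos
  obtain ⟨M, hM⟩ := exists_nat_ge (P.K * |D| * L ^ (n + 1) / κ)
  obtain ⟨j, hj, hjb⟩ := hJ.exists_gt (M + n + 1 + (2 * R + 1))
  obtain ⟨μ, hμ, hμb⟩ := hact j hj
  set k : ℕ := NN j / (2 * (c + 1)) with hk
  have hNN : j < NN j := by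
    unfold NN
    calc j ≤ j ^ 2 := Nat.le_self_pow two_ne_zero j
      _ < 4 ^ (j ^ 2) := Nat.lt_pow_self (by norm_num)
  have hKlt : c * k + R < NN j := by
    have h1 : k * (2 * (c + 1)) ≤ NN j := Nat.div_mul_le_self _ _
    have h2 : 2 * (c * k) ≤ NN j := by nlinarith
    omega
  have h1 : ‖μ‖ ≤ P.K * (D / Real.sqrt (k + 1) ^ (n + 1)) := by
    rw [mul_comm, ← div_le_iff₀ hKp]
    refine le_of_forall_gt_imp_ge_of_dense fun δ hδ => ?_
    rw [div_le_iff₀ hKp, mul_comm]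
    exact hμ.norm_le (hu k δ hδ) hKlt
  have hsq : 2 ^ (j ^ 2) / L ≤ Real.sqrt (k + 1) := by
    rw [hL, ← sqrt_NN, ← Real.sqrt_div' _ (by positivity)]
    refine Real.sqrt_le_sqrt ?_
    rw [div_le_iff₀ (by positivity)]
    have h2 : NN j < 2 * (c + 1) * (k + 1) := Nat.lt_mul_div_succ _ (by positivity)
    have h3 : (NN j : ℝ) ≤ 2 * (c + 1) * (k + 1) := by exact_mod_cast h2.le
    linarith
  have h2 : D / Real.sqrt (k + 1) ^ (n + 1) ≤ |D| * L ^ (n + 1) / (2 ^ (j ^ 2)) ^ (n + 1) := by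
    calc D / Real.sqrt (k + 1) ^ (n + 1) ≤ |D| / Real.sqrt (k + 1) ^ (n + 1) := by
          gcongr
          exact le_abs_self D
      _ ≤ |D| / (2 ^ (j ^ 2) / L) ^ (n + 1) := by
          gcongr
      _ = _ := by
          rw [div_pow, div_div_eq_mul_div]
  have h3 : κ * ((1 / 2) ^ j / 2 ^ (j ^ 2)) ^ n ≤
      P.K * |D| * L ^ (n + 1) / (2 ^ (j ^ 2)) ^ (n + 1) := by
    refine hμb.trans (h1.trans ((mul_le_mul_of_nonneg_left h2 hKp.le).trans (le_of_eq ?_)))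
    ring
  have h4 : κ * 2 ^ (j ^ 2) ≤ P.K * |D| * L ^ (n + 1) * 2 ^ (j * n) := by
    rw [le_div_iff₀ (by positivity)] at h3
    have e1 : κ * ((1 / 2) ^ j / 2 ^ (j ^ 2)) ^ n * (2 ^ (j ^ 2)) ^ (n + 1) =
        κ * 2 ^ (j ^ 2) / 2 ^ (j * n) := by
      have hX : (0 : ℝ) < 2 ^ (j ^ 2) := by positivity
      have hY : (0 : ℝ) < 2 ^ j := by positivity
      rw [pow_mul, one_div_pow]
      generalize (2 : ℝ) ^ (j ^ 2) = X at hX ⊢
      generalize (2 : ℝ) ^ j = Y at hY ⊢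
      rw [div_pow, one_div, inv_pow, pow_succ]
      field_simp
    rw [e1, div_le_iff₀ (by positivity)] at h3
    exact h3
  have h5 : (2 : ℝ) ^ (j * n) * 2 ^ j ≤ 2 ^ (j ^ 2) := by
    rw [← pow_add]
    refine pow_le_pow_right₀ one_le_two ?_
    have : n + 1 ≤ j := by omega
    nlinarith
  have h6 : κ * 2 ^ j ≤ P.K * |D| * L ^ (n + 1) := by
    have h7 : κ * 2 ^ j * 2 ^ (j * n) ≤ P.K * |D| * L ^ (n + 1) * 2 ^ (j * n) := by
      refine le_trans ?_ h4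
      calc κ * 2 ^ j * 2 ^ (j * n) = κ * (2 ^ (j * n) * 2 ^ j) := by ring
        _ ≤ κ * 2 ^ (j ^ 2) := by gcongr
    exact le_of_mul_le_mul_right h7 (by positivity)
  have h7 : (j : ℝ) < 2 ^ j := by exact_mod_cast Nat.lt_two_pow_self
  rw [div_le_iff₀ hκ] at hM
  have h8 : (M : ℝ) < j := by exact_mod_cast (by omega : M < j)
  nlinarith

end

end Pool.Agent.KS6_29.PW
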