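import Pool.Agent.KS6_29.PW.Gen
import Mathlib.Analysis.Real.Cardinality

/-!
Cardinality bounds, and the space of Pisier type.
-/

set_option autoImplicit false

namespace Pool.Agent.KS6_29.PW

open W700.PS Filter Topology

section
variable {E : Type} [NormedAddCommGroup E] [NormedSpace ℂ E]

theorem mk_le_continuum (E : Type) [NormedAddCommGroup E] [TopologicalSpace.SeparableSpace E] :
    Cardinal.mk E ≤ Cardinal.continuum := by
  have h : Function.Injective
      (fun x : E => fun k : ℕ => dist x (TopologicalSpace.denseSeq E k)) := by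
    intro x y hxy
    refine dist_le_zero.1 (le_of_forall_pos_le_add fun ε hε => ?_)
    obtain ⟨k, hk⟩ := (TopologicalSpace.denseRange_denseSeq E).exists_dist_lt x (half_pos hε)
    have h2 := congrFun hxy k
    simp only at h2
    calc dist x y ≤ dist x (TopologicalSpace.denseSeq E k) +
          dist y (TopologicalSpace.denseSeq E k) := dist_triangle_right _ _ _
      _ ≤ 0 + ε := by rw [← h2]; linarith
  have h2 := Cardinal.mk_le_of_injective h
  refine h2.trans (le_of_eq ?_)
  simp [Cardinal.mk_real]

theorem mk_clm_le_continuum [TopologicalSpace.SeparableSpace E] :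
    Cardinal.mk (E →L[ℂ] E) ≤ Cardinal.continuum := by
  have h : Function.Injective
      (fun T : E →L[ℂ] E => fun k : ℕ => T (TopologicalSpace.denseSeq E k)) := by
    intro S T hST
    refine ContinuousLinearMap.ext fun x => ?_
    exact congrFun ((TopologicalSpace.denseRange_denseSeq E).equalizer S.continuous T.continuous
      hST) x
  have h2 := Cardinal.mk_le_of_injective h
  refine h2.trans ?_
  rw [Cardinal.mk_pi]
  calc _ = (Cardinal.mk E) ^ (Cardinal.aleph0) := by simp
    _ ≤ Cardinal.continuum ^ Cardinal.aleph0 := Cardinal.power_le_power_right (mk_le_continuum E)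
    _ = Cardinal.continuum := Cardinal.continuum_power_aleph0

theorem rank_eq [CompleteSpace E] [TopologicalSpace.SeparableSpace E] (P : Cop E) {C : ℝ}
    (hC : 0 ≤ C) (hA : ∀ a ∈ (FRk E).topologicalClosure, PiB (C * ‖a‖) a) {n : ℕ} (hn : n ≠ 0) :
    Module.rank ℂ (↥((FRk E).topologicalClosure ^ n) ⧸
      ((FRk E).topologicalClosure ^ (n + 1)).submoduleOf ((FRk E).topologicalClosure ^ n)) =
      Cardinal.continuum := by
  refine le_antisymm ?_ (le_rank P hC hA hn)
  refine (rank_le_card ℂ _).trans ?_
  refine Cardinal.mk_quotient_le.trans ?_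
  exact (Cardinal.mk_set_le _).trans mk_clm_le_continuum

theorem mul_mem_cl {a b : E →L[ℂ] E} (hb : b ∈ (FRk E).topologicalClosure) :
    a * b ∈ (FRk E).topologicalClosure := by
  have hc : Continuous fun b : E →L[ℂ] E => a * b := continuous_const.mul continuous_id
  exact map_mem_closure hc hb fun b hb => FRk_mul_left a hb

theorem pow_succ_le (n : ℕ) (hn : n ≠ 0) :
    (FRk E).topologicalClosure ^ (n + 1) ≤ (FRk E).topologicalClosure ^ n := by
  set A : Submodule ℂ (E →L[ℂ] E) := (FRk E).topologicalClosure with hAdef
  have h1 : A * A ≤ A := Submodule.mul_le.2 fun a _ b hb => mul_mem_cl hb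
  obtain ⟨m, rfl⟩ := Nat.exists_eq_succ_of_ne_zero hn
  rw [Nat.succ_eq_add_one, Submodule.pow_succ, Submodule.pow_succ]
  refine Submodule.mul_le.2 fun x hx y hy => ?_
  refine Submodule.mul_induction_on hx (fun p hp q hq => ?_) (fun p q hp hq => ?_)
  · rw [mul_assoc]
    exact Submodule.mul_mem_mul hp (h1 (Submodule.mul_mem_mul hq hy))
  · rw [add_mul]
    exact Submodule.add_mem _ hp hq

end

instance : TopologicalSpace.SeparableSpace PP := by
  have h1 : DenseRange ((Submodule.Quotient.mk : VV → PP) ∘ SB.D) := by
    refine DenseRange.comp ?_ SB.dense ?_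
    · exact (Submodule.Quotient.mk_surjective _).denseRange
    · exact continuous_quot_mk
  exact h1.separableSpace'

end Pool.Agent.KS6_29.PW
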