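import Pool.Agent.KS6_29.PW.Rank

/-!
Genericity, a closed subspace of bad elements, and discontinuous functionals.
-/

set_option autoImplicit false

namespace Pool.Agent.KS6_29.PW

open W700.PS Filter Topology

section
variable {E : Type} [NormedAddCommGroup E] [NormedSpace ℂ E]

/-! ### the finite rank operators form an ideal -/

theorem FRk_mul_left (a : E →L[ℂ] E) {r : E →L[ℂ] E} (hr : r ∈ FRk E) : a * r ∈ FRk E := by
  unfold FRk at hr
  induction hr using Submodule.span_induction with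
  | mem x hx =>
    obtain ⟨f, y, rfl⟩ := hx
    refine Submodule.subset_span ⟨f, a y, ?_⟩
    ext z; simp
  | zero => rw [mul_zero]; exact Submodule.zero_mem _
  | add x y _ _ hx hy => rw [mul_add]; exact Submodule.add_mem _ hx hy
  | smul t x _ hx => rw [mul_smul_comm]; exact Submodule.smul_mem _ _ hx

theorem FRk_mul_right (a : E →L[ℂ] E) {r : E →L[ℂ] E} (hr : r ∈ FRk E) : r * a ∈ FRk E := by
  unfold FRk at hr
  induction hr using Submodule.span_induction with
  | mem x hx =>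
    obtain ⟨f, y, rfl⟩ := hx
    refine Submodule.subset_span ⟨f.comp a, y, ?_⟩
    ext z; simp
  | zero => rw [zero_mul]; exact Submodule.zero_mem _
  | add x y _ _ hx hy => rw [add_mul]; exact Submodule.add_mem _ hx hy
  | smul t x _ hx => rw [smul_mul_assoc]; exact Submodule.smul_mem _ _ hx

theorem pow_add_FRk {b : E →L[ℂ] E} (hb : b ∈ FRk E) (v : E →L[ℂ] E) (n : ℕ) :
    ∃ r ∈ FRk E, (b + v) ^ n = v ^ n + r := by
  induction n with
  | zero => exact ⟨0, Submodule.zero_mem _, by simp⟩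
  | succ n ih =>
    obtain ⟨r, hr, h⟩ := ih
    refine ⟨(b + v) * r + b * v ^ n, ?_, ?_⟩
    · exact Submodule.add_mem _ (FRk_mul_left _ hr) (FRk_mul_right _ hb)
    · rw [pow_succ' (b + v), h, pow_succ']
      noncomm_ring

/-- rank one operators are products -/
theorem FRk_le_sq : FRk E ≤ (FRk E).topologicalClosure ^ 2 := by
  unfold FRk
  rw [Submodule.span_le]
  rintro w ⟨f, x, rfl⟩
  by_cases hx : x = 0
  · subst hx
    have : (f.smulRight (0 : E) : E →L[ℂ] E) = 0 := by ext; simp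
    rw [this]; exact Submodule.zero_mem _
  · obtain ⟨g, -, hg⟩ := exists_dual_vector ℂ x (norm_ne_zero_iff.2 hx)
    have hx' : (‖x‖ : ℂ) ≠ 0 := by
      rw [Ne, Complex.ofReal_eq_zero, norm_eq_zero]; exact hx
    have h : (f.smulRight x : E →L[ℂ] E) = (((‖x‖ : ℂ)⁻¹ • g).smulRight x) * (f.smulRight x) := by
      ext y
      have hg' : g x = (‖x‖ : ℂ) := hg
      simp [hg', hx']
    rw [h, sq]
    exact Submodule.mul_mem_mul
      ((FRk E).le_topologicalClosure (Submodule.subset_span ⟨_, _, rfl⟩))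
      ((FRk E).le_topologicalClosure (Submodule.subset_span ⟨_, _, rfl⟩))

variable [CompleteSpace E]

/-! ### genericity -/

theorem residual_bad (P : Cop E) {C : ℝ} (hC : 0 ≤ C)
    (hA : ∀ a ∈ (FRk E).topologicalClosure, PiB (C * ‖a‖) a) :
    {a : ↥(FRk E).topologicalClosure | ∀ n : ℕ, n ≠ 0 →
      (a : E →L[ℂ] E) ^ n ∉ (FRk E).topologicalClosure ^ (n + 1)} ∈
      residual ↥(FRk E).topologicalClosure := by
  set A : Submodule ℂ (E →L[ℂ] E) := (FRk E).topologicalClosure with hAdef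
  have key : ∀ n c D : ℕ, n ≠ 0 →
      {a : A | ¬ WD (n + 1) c 0 D ((a : E →L[ℂ] E) ^ n)} ∈ residual A := by
    intro n c D hn
    refine residual_of_dense_open ?_ ?_
    · have h1 : IsClosed {a : A | WD (n + 1) c 0 D ((a : E →L[ℂ] E) ^ n)} :=
        (isClosed_WD (E := E) (n + 1) c 0 D).preimage (continuous_subtype_val.pow n)
      exact h1.isOpen_compl
    · intro a
      rw [Metric.mem_closure_iff]
      intro ε hε
      have ha : (a : E →L[ℂ] E) ∈ closure (FRk E : Set (E →L[ℂ] E)) := a.2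
      obtain ⟨b, hb, hab⟩ := Metric.mem_closure_iff.1 ha (ε / 2) (half_pos hε)
      have hone : ∀ j : ℕ, ‖(1 : ℕ → ℂ) j‖ ≤ 1 := fun j => by simp
      have hKp := P.K_pos
      set v : E →L[ℂ] E := ((ε / (8 * P.K) : ℝ) : ℂ) • TT P 1 with hv
      have hvA : v ∈ A := A.smul_mem _ (TT_mem P hone)
      have hvn : ‖v‖ ≤ ε / 4 := by
        rw [hv, norm_smul, Complex.norm_of_nonneg (by positivity)]
        have := norm_TT_le P hone
        calc ε / (8 * P.K) * ‖TT P 1‖ ≤ ε / (8 * P.K) * (2 * (1 * P.K)) := by gcongr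
          _ = ε / 4 := by field_simp; norm_num
      refine ⟨⟨b + v, A.add_mem ((FRk E).le_topologicalClosure hb) hvA⟩, ?_, ?_⟩
      · intro hWD
        obtain ⟨r, hr, hpow⟩ := pow_add_FRk hb v n
        have h2 : WD (n + 1) c 0 D (v ^ n + r) := by rw [← hpow]; exact hWD
        obtain ⟨R, hR⟩ := exists_Sn_of_FRk (Submodule.neg_mem _ hr)
        have h3 := h2.add_fr hR
        rw [add_neg_cancel_right] at h3
        refine contra (P := P) h3 Set.infinite_univ (κ := (ε / (8 * P.K)) ^ n)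
          (by positivity) ?_
        intro j _
        refine ⟨_, ((acts_TT P hone j).smul ((ε / (8 * P.K) : ℝ) : ℂ)).pow n, ?_⟩
        rw [Pi.one_apply, ← mul_assoc, mul_one, norm_wt, Complex.norm_of_nonneg (by positivity)]
      · rw [Subtype.dist_eq]
        show dist (a : E →L[ℂ] E) (b + v) < ε
        calc dist (a : E →L[ℂ] E) (b + v) ≤ dist (a : E →L[ℂ] E) b + dist b (b + v) :=
              dist_triangle _ _ _
          _ < ε / 2 + ε / 2 := by
              refine add_lt_add_of_lt_of_le hab ?_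
              rw [dist_eq_norm, sub_add_cancel_left, norm_neg]
              linarith
          _ = ε := by ring
  have h2 : (⋂ p : ℕ × ℕ × ℕ, {a : A | ¬ WD (p.1 + 1 + 1) p.2.1 0 p.2.2
      ((a : E →L[ℂ] E) ^ (p.1 + 1))}) ∈ residual A :=
    countable_iInter_mem.2 fun p => key (p.1 + 1) p.2.1 p.2.2 (Nat.succ_ne_zero _)
  refine mem_of_superset h2 ?_
  intro a ha n hn hmem
  obtain ⟨c, D, h⟩ := exists_WD A C hC hA n _ hmem
  obtain ⟨m, rfl⟩ := Nat.exists_eq_succ_of_ne_zero hn
  have := Set.mem_iInter.1 ha (m, c, D)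
  exact this h

/-! ### a closed subspace of bad elements -/

theorem lp_norm_le (t : L2) (m : ℕ → ℕ) (j : ℕ) : ‖(fun j => t (m j)) j‖ ≤ ‖t‖ :=
  lp.norm_apply_le_norm (by simp) t (m j)

/-- the embedding of `ℓ₂` -/
noncomputable def UU (P : Cop E) : L2 →L[ℂ] (E →L[ℂ] E) :=
  LinearMap.mkContinuous
    { toFun := fun t => (P.f 0).smulRight (P.psi t) + TT P (fun j => t (Nat.unpair j).1)
      map_add' := fun s t => by
        have e1 : (fun j => (s + t : L2) (Nat.unpair j).1) =
            (fun j => s (Nat.unpair j).1) + (fun j => t (Nat.unpair j).1) := rfl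
        have e2 : (P.f 0).smulRight (P.psi (s + t)) =
            (P.f 0).smulRight (P.psi s) + (P.f 0).smulRight (P.psi t) := by
          ext x; simp
        rw [e1, e2, TT_add P (lp_norm_le s _) (lp_norm_le t _)]
        abel
      map_smul' := fun r t => by
        have e1 : (fun j => (r • t : L2) (Nat.unpair j).1) =
            r • (fun j => t (Nat.unpair j).1) := rfl
        have e2 : (P.f 0).smulRight (P.psi (r • t)) = r • (P.f 0).smulRight (P.psi t) := by
          ext x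
          show P.f 0 x • P.psi (r • t) = r • (P.f 0 x • P.psi t)
          rw [map_smul, smul_comm]
        rw [e1, e2, TT_smul P (lp_norm_le t _), RingHom.id_apply, smul_add] } (3 * P.K)
    (fun t => by
      show ‖(P.f 0).smulRight (P.psi t) + TT P (fun j => t (Nat.unpair j).1)‖ ≤ 3 * P.K * ‖t‖
      have h1 := norm_TT_le P (lp_norm_le t fun j => (Nat.unpair j).1)
      have h2 : ‖(P.f 0).smulRight (P.psi t)‖ ≤ P.K * ‖t‖ := by
        rw [ContinuousLinearMap.norm_smulRight_apply]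
        exact (mul_le_of_le_one_left (norm_nonneg _) (P.norm_f 0)).trans (P.norm_psi t)
      refine (norm_add_le _ _).trans ?_
      linarith)

theorem UU_apply (P : Cop E) (t : L2) : UU P t =
    (P.f 0).smulRight (P.psi t) + TT P (fun j => t (Nat.unpair j).1) := rfl

theorem UU_mem (P : Cop E) (t : L2) : UU P t ∈ (FRk E).topologicalClosure := by
  rw [UU_apply]
  refine Submodule.add_mem _ ((FRk E).le_topologicalClosure (Submodule.subset_span ⟨_, _, rfl⟩)) ?_
  exact TT_mem P (lp_norm_le t _)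

theorem le_norm_UU (P : Cop E) (t : L2) : ‖t‖ ≤ P.K * ‖UU P t‖ := by
  have h1 := (UU P t).le_opNorm (P.psi (lp.single 2 0 (1 : ℂ)))
  have h2 : UU P t (P.psi (lp.single 2 0 (1 : ℂ))) = P.psi t := by
    rw [UU_apply, add_apply, TT_psi_zero P (lp_norm_le t _), add_zero,
      ContinuousLinearMap.smulRight_apply, P.f_psi]
    simp
  have h3 := P.norm_psi (lp.single 2 0 (1 : ℂ))
  rw [lp.norm_single (by norm_num), norm_one, mul_one] at h3
  rw [h2] at h1
  have h4 := P.le_psi t
  have h5 : ‖UU P t‖ * ‖P.psi (lp.single 2 0 (1 : ℂ))‖ ≤ ‖UU P t‖ * P.K :=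
    mul_le_mul_of_nonneg_left h3 (norm_nonneg _)
  linarith

theorem acts_UU (P : Cop E) (t : L2) (j : ℕ) :
    Acts P (UU P t) j (t (Nat.unpair j).1 * ((1 / 2) ^ j / 2 ^ (j ^ 2))) := by
  have h1 : Acts P ((P.f 0).smulRight (P.psi t)) j 0 := by
    intro i hi
    rw [ContinuousLinearMap.smulRight_apply, P.f_psi, ee_apply, if_neg (ix_ne_zero _ _).symm,
      zero_smul, zero_smul]
  have h2 := h1.add (acts_TT P (lp_norm_le t fun j => (Nat.unpair j).1) j)
  rw [zero_add] at h2
  exact h2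

theorem UU_pow_not_mem (P : Cop E) {C : ℝ} (hC : 0 ≤ C)
    (hA : ∀ a ∈ (FRk E).topologicalClosure, PiB (C * ‖a‖) a) (t : L2) (ht : t ≠ 0) (n : ℕ) :
    (UU P t) ^ n ∉ (FRk E).topologicalClosure ^ (n + 1) := by
  obtain ⟨m, hm⟩ : ∃ m, t m ≠ 0 := by
    by_contra h
    push Not at h
    exact ht (lp.ext (funext h))
  have hinf : (Set.range fun b : ℕ => Nat.pair m b).Infinite :=
    Set.infinite_range_of_injective fun a b h => (Nat.pair_eq_pair.1 h).2
  refine not_mem_pow (P := P) hC hA hinf (κ := ‖t m‖ ^ n) (pow_pos (norm_pos_iff.2 hm) _) ?_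
  rintro _ ⟨b, rfl⟩
  refine ⟨_, (acts_UU P t _).pow n, ?_⟩
  rw [norm_wt, Nat.unpair_pair]

/-- the closed subspace -/
theorem exists_subspace (P : Cop E) {C : ℝ} (hC : 0 ≤ C)
    (hA : ∀ a ∈ (FRk E).topologicalClosure, PiB (C * ‖a‖) a) :
    ∃ Z : Submodule ℂ (E →L[ℂ] E), Z ≤ (FRk E).topologicalClosure ∧
      IsClosed (Z : Set (E →L[ℂ] E)) ∧ Nonempty (Z ≃L[ℂ] L2) ∧
      ∀ a ∈ Z, a ≠ 0 → ∀ n : ℕ, a ^ n ∉ (FRk E).topologicalClosure ^ (n + 1) := by
  have hanti : AntilipschitzWith ⟨P.K, P.K_pos.le⟩ (UU P) := by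
    refine AddMonoidHomClass.antilipschitz_of_bound (UU P) fun t => ?_
    exact le_norm_UU P t
  have hcl : IsClosed (Set.range (UU P)) := hanti.isClosed_range (UU P).uniformContinuous
  refine ⟨LinearMap.range (UU P : L2 →ₗ[ℂ] (E →L[ℂ] E)), ?_, ?_, ?_, ?_⟩
  · rintro _ ⟨t, rfl⟩
    exact UU_mem P t
  · exact hcl
  · exact ⟨((UU P).equivRange hanti.injective hcl).symm⟩
  · rintro _ ⟨t, rfl⟩ ha n
    refine UU_pow_not_mem P hC hA t ?_ n
    rintro rfl
    exact ha (map_zero _)

/-! ### discontinuous functionals -/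

theorem exists_disc (P : Cop E) {C : ℝ} (hC : 0 ≤ C)
    (hA : ∀ a ∈ (FRk E).topologicalClosure, PiB (C * ‖a‖) a) :
    ∃ φ : ↥(FRk E).topologicalClosure →ₗ[ℂ] ℂ, ¬ Continuous φ ∧
      ∀ a : ↥(FRk E).topologicalClosure,
        (a : E →L[ℂ] E) ∈ (FRk E).topologicalClosure ^ 2 → φ a = 0 := by
  set A : Submodule ℂ (E →L[ℂ] E) := (FRk E).topologicalClosure with hAdef
  set B : Submodule ℂ A := (A ^ 2).submoduleOf A with hB
  have hmem : ∀ a : A, a ∈ B ↔ (a : E →L[ℂ] E) ∈ A ^ 2 := fun a => Iff.rfl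
  have hone : ∀ j : ℕ, ‖(1 : ℕ → ℂ) j‖ ≤ 1 := fun j => by simp
  have hlt : B < ⊤ := by
    rw [lt_top_iff_ne_top]
    intro h
    have h1 : (⟨TT P 1, TT_mem P hone⟩ : A) ∈ B := by rw [h]; exact Submodule.mem_top
    rw [hmem] at h1
    have h2 := not_mem_pow (P := P) hC hA (n := 1) (u := TT P 1) Set.infinite_univ one_pos
      (fun j _ => ⟨_, acts_TT P hone j, by
        have := norm_wt 1 j ((1 : ℕ → ℂ) j)
        rw [pow_one] at this
        rw [this]; simp⟩)
    exact h2 h1
  obtain ⟨φ, hφ, hφB⟩ := B.exists_le_ker_of_lt_top hlt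
  refine ⟨φ, fun hc => hφ ?_, fun a ha => hφB ((hmem a).2 ha)⟩
  have hd : Dense (B : Set A) := by
    intro a
    rw [Metric.mem_closure_iff]
    intro ε hε
    have ha : (a : E →L[ℂ] E) ∈ closure (FRk E : Set (E →L[ℂ] E)) := a.2
    obtain ⟨b, hb, hab⟩ := Metric.mem_closure_iff.1 ha ε hε
    exact ⟨⟨b, (FRk E).le_topologicalClosure hb⟩, FRk_le_sq hb, hab⟩
  have h3 : (φ : A → ℂ) = 0 := Continuous.ext_on hd hc continuous_zero
    (fun a ha => hφB ha)
  exact LinearMap.ext fun a => congrFun h3 a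

end

end Pool.Agent.KS6_29.PW
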