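import Pool.Agent.KS6_29.PW.Blk

/-!
The operators `∑ s j 2^(-j) q j`, and elements none of whose powers lies in the next power of the
algebra.
-/

set_option autoImplicit false

namespace Pool.Agent.KS6_29.PW

open W700.PS Filter Topology

section
variable {E : Type} [NormedAddCommGroup E] [NormedSpace ℂ E] (P : Cop E)

/-- `∑ s j 2^(-j) q j` -/
noncomputable def TT (s : ℕ → ℂ) : E →L[ℂ] E := ∑' j, (s j * (1 / 2) ^ j) • qq P j

theorem norm_term_le {s : ℕ → ℂ} {S : ℝ} (hs : ∀ j, ‖s j‖ ≤ S) (j : ℕ) :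
    ‖(s j * (1 / 2) ^ j) • qq P j‖ ≤ (S * P.K) * (1 / 2) ^ j := by
  have h0 : 0 ≤ S := (norm_nonneg _).trans (hs 0)
  rw [norm_smul, norm_mul, norm_pow]
  have h1 : ‖(1 / 2 : ℂ)‖ = 1 / 2 := by norm_num
  rw [h1]
  calc ‖s j‖ * (1 / 2) ^ j * ‖qq P j‖ ≤ S * (1 / 2) ^ j * P.K := by
        gcongr
        · exact hs j
        · exact norm_qq P j
    _ = _ := by ring

theorem hasSum_geom (S : ℝ) : HasSum (fun j : ℕ => S * (1 / 2 : ℝ) ^ j) (2 * S) := by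
  have := hasSum_geometric_two.mul_left S
  rwa [mul_comm S 2] at this

theorem norm_TT_le {s : ℕ → ℂ} {S : ℝ} (hs : ∀ j, ‖s j‖ ≤ S) : ‖TT P s‖ ≤ 2 * (S * P.K) :=
  tsum_of_norm_bounded (hasSum_geom _) (norm_term_le P hs)

variable [CompleteSpace E]

theorem summable_TT {s : ℕ → ℂ} {S : ℝ} (hs : ∀ j, ‖s j‖ ≤ S) :
    Summable (fun j => (s j * (1 / 2) ^ j) • qq P j) :=
  Summable.of_norm_bounded (hasSum_geom (S * P.K)).summable (norm_term_le P hs)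

theorem TT_add {s t : ℕ → ℂ} {S T : ℝ} (hs : ∀ j, ‖s j‖ ≤ S) (ht : ∀ j, ‖t j‖ ≤ T) :
    TT P (s + t) = TT P s + TT P t := by
  unfold TT
  rw [← (summable_TT P hs).tsum_add (summable_TT P ht)]
  refine tsum_congr fun j => ?_
  rw [Pi.add_apply, add_mul, add_smul]

theorem TT_smul {s : ℕ → ℂ} {S : ℝ} (hs : ∀ j, ‖s j‖ ≤ S) (r : ℂ) :
    TT P (r • s) = r • TT P s := by
  unfold TT
  rw [← (summable_TT P hs).tsum_const_smul]
  refine tsum_congr fun j => ?_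
  rw [Pi.smul_apply, smul_eq_mul, mul_assoc, mul_smul]

theorem TT_mem {s : ℕ → ℂ} {S : ℝ} (hs : ∀ j, ‖s j‖ ≤ S) :
    TT P s ∈ (FRk E).topologicalClosure := by
  have h := (summable_TT P hs).hasSum
  refine (FRk E).isClosed_topologicalClosure.mem_of_tendsto h (Eventually.of_forall fun F => ?_)
  refine (FRk E).le_topologicalClosure ?_
  exact Submodule.sum_mem _ fun j _ => Submodule.smul_mem _ _ (qq_mem P j)

theorem TT_apply {s : ℕ → ℂ} {S : ℝ} (hs : ∀ j, ‖s j‖ ≤ S) (x : E) :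
    TT P s x = ∑' j, (s j * (1 / 2) ^ j) • qq P j x := by
  have h := (ContinuousLinearMap.apply ℂ E x).map_tsum (summable_TT P hs)
  exact h

theorem acts_TT {s : ℕ → ℂ} {S : ℝ} (hs : ∀ j, ‖s j‖ ≤ S) (j : ℕ) :
    Acts P (TT P s) j (s j * ((1 / 2) ^ j / 2 ^ (j ^ 2))) := by
  intro i hi
  rw [TT_apply P hs, tsum_eq_single j]
  · rw [acts_qq_self P j i hi, smul_smul]
    congr 1
    rw [mul_assoc, ← div_eq_mul_inv]
  · intro j' hj'
    rw [acts_qq_ne P j' j hj' i hi, zero_smul, smul_zero]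

theorem TT_psi_zero {s : ℕ → ℂ} {S : ℝ} (hs : ∀ j, ‖s j‖ ≤ S) :
    TT P s (P.psi (lp.single 2 0 (1 : ℂ))) = 0 := by
  rw [TT_apply P hs]
  simp only [qq_psi_zero, smul_zero, tsum_zero]

omit [CompleteSpace E] in
theorem norm_wt (n j : ℕ) (s : ℂ) : ‖(s * ((1 / 2) ^ j / 2 ^ (j ^ 2))) ^ n‖ =
    ‖s‖ ^ n * ((1 / 2) ^ j / 2 ^ (j ^ 2)) ^ n := by
  rw [norm_pow, norm_mul, norm_div, norm_pow, norm_pow, mul_pow]
  have h1 : ‖(1 / 2 : ℂ)‖ = 1 / 2 := by norm_num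
  have h2 : ‖(2 : ℂ)‖ = 2 := by norm_num
  rw [h1, h2]

end

end Pool.Agent.KS6_29.PW
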