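import Pool.Agent.KS6_29.PW.Oper
import Mathlib.SetTheory.Cardinal.Continuum

/-!
The quotients of consecutive powers of the algebra of approximable operators have dimension continuum.
-/

set_option autoImplicit false

namespace Pool.Agent.KS6_29.PW

open W700.PS Filter Topology

/-! ### an almost disjoint family -/

/-- code of the first `n` values -/
def cd (x : ℕ → Bool) (n : ℕ) : ℕ := Encodable.encode ((List.range n).map x)

theorem cd_eq {x y : ℕ → Bool} {n m : ℕ} (h : cd x n = cd y m) : n = m ∧ ∀ i < n, x i = y i := by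
  have h1 := Encodable.encode_injective h
  have h2 : n = m := by
    have := congrArg List.length h1
    simpa using this
  subst h2
  refine ⟨rfl, fun i hi => ?_⟩
  exact List.map_inj_left.1 h1 i (List.mem_range.2 hi)

/-- the branch -/
def Br (x : ℕ → Bool) : Set ℕ := Set.range (cd x)

theorem Br_infinite (x : ℕ → Bool) : (Br x).Infinite :=
  Set.infinite_range_of_injective fun _ _ h => (cd_eq h).1

theorem Br_inter (x y : ℕ → Bool) (h : x ≠ y) : (Br x ∩ Br y).Finite := by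
  obtain ⟨k, hk⟩ := Function.ne_iff.1 h
  refine (Set.finite_Iic k |>.image (cd x)).subset ?_
  rintro j ⟨⟨n, rfl⟩, ⟨m, hm⟩⟩
  refine ⟨n, ?_, rfl⟩
  by_contra hn
  exact hk ((cd_eq hm.symm).2 k (not_le.1 hn))

theorem Br_diff (x : ℕ → Bool) (s : Finset (ℕ → Bool)) :
    {j | j ∈ Br x ∧ ∀ y ∈ s, y ≠ x → j ∉ Br y}.Infinite := by
  classical
  have h1 : (⋃ y ∈ s.filter (fun y => y ≠ x), (Br x ∩ Br y)).Finite := by
    refine Set.Finite.biUnion (Finset.finite_toSet _) fun y hy => ?_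
    exact Br_inter x y (Finset.mem_filter.1 hy).2.symm
  refine ((Br_infinite x).sdiff h1).mono ?_
  rintro j ⟨hj, hj2⟩
  refine ⟨hj, fun y hy hyx hjy => hj2 ?_⟩
  exact Set.mem_biUnion (Finset.mem_coe.2 (Finset.mem_filter.2 ⟨hy, hyx⟩)) ⟨hj, hjy⟩

open Classical in
/-- indicator sequence -/
noncomputable def ind (x : ℕ → Bool) (j : ℕ) : ℂ := if j ∈ Br x then 1 else 0

theorem norm_ind_le (x : ℕ → Bool) (j : ℕ) : ‖ind x j‖ ≤ 1 := by
  unfold ind; split_ifs <;> simp

section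
variable {E : Type} [NormedAddCommGroup E] [NormedSpace ℂ E] {P : Cop E}

/-- an element which acts on infinitely many blocks by large scalars is not in the next power -/
theorem not_mem_pow {C : ℝ} (hC : 0 ≤ C)
    (hA : ∀ a ∈ (FRk E).topologicalClosure, PiB (C * ‖a‖) a) {n : ℕ} {u : E →L[ℂ] E}
    {J : Set ℕ} (hJ : J.Infinite) {κ : ℝ} (hκ : 0 < κ)
    (hact : ∀ j ∈ J, ∃ μ : ℂ, Acts P u j μ ∧ κ * ((1 / 2) ^ j / 2 ^ (j ^ 2)) ^ n ≤ ‖μ‖) :
    u ∉ (FRk E).topologicalClosure ^ (n + 1) := by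
  intro hu
  obtain ⟨c, D, h⟩ := exists_WD _ C hC hA n u hu
  exact contra h hJ hκ hact

variable [CompleteSpace E]

/-- no nontrivial combination of the powers is in the next power -/
theorem comb_not_mem (P : Cop E) {C : ℝ} (hC : 0 ≤ C)
    (hA : ∀ a ∈ (FRk E).topologicalClosure, PiB (C * ‖a‖) a) {n : ℕ} (hn : n ≠ 0)
    (s : Finset (ℕ → Bool)) (g : (ℕ → Bool) → ℂ)
    (h : ∑ x ∈ s, g x • (TT P (ind x)) ^ n ∈ (FRk E).topologicalClosure ^ (n + 1)) :
    ∀ x ∈ s, g x = 0 := by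
  intro x hx
  by_contra hg
  refine not_mem_pow (P := P) hC hA (Br_diff x s) (norm_pos_iff.2 hg) ?_ h
  rintro j ⟨hj, hj2⟩
  refine ⟨∑ y ∈ s, g y * (ind y j * ((1 / 2) ^ j / 2 ^ (j ^ 2))) ^ n,
    Acts.sum s _ j _ fun y _ => ((acts_TT P (norm_ind_le y) j).pow n).smul (g y), ?_⟩
  rw [Finset.sum_eq_single x]
  · rw [norm_mul, norm_wt]
    have : ind x j = 1 := by unfold ind; rw [if_pos hj]
    rw [this, norm_one, one_pow, one_mul]
  · intro y hy hyx
    have : ind y j = 0 := by unfold ind; rw [if_neg (hj2 y hy hyx)]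
    rw [this, zero_mul, zero_pow hn, mul_zero]
  · intro h'; exact absurd hx h'

theorem le_rank (P : Cop E) {C : ℝ} (hC : 0 ≤ C)
    (hA : ∀ a ∈ (FRk E).topologicalClosure, PiB (C * ‖a‖) a) {n : ℕ} (hn : n ≠ 0) :
    Cardinal.continuum ≤ Module.rank ℂ (↥((FRk E).topologicalClosure ^ n) ⧸
      ((FRk E).topologicalClosure ^ (n + 1)).submoduleOf ((FRk E).topologicalClosure ^ n)) := by
  set A : Submodule ℂ (E →L[ℂ] E) := (FRk E).topologicalClosure with hAdef
  have hmem : ∀ x : ℕ → Bool, (TT P (ind x)) ^ n ∈ A ^ n := fun x =>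
    Submodule.pow_mem_pow _ (TT_mem P (norm_ind_le x)) n
  have hli : LinearIndependent ℂ (fun x : ℕ → Bool =>
      ((A ^ (n + 1)).submoduleOf (A ^ n)).mkQ ⟨(TT P (ind x)) ^ n, hmem x⟩) := by
    rw [linearIndependent_iff']
    intro s g hg
    have h1 : ((A ^ (n + 1)).submoduleOf (A ^ n)).mkQ
        (∑ x ∈ s, g x • (⟨(TT P (ind x)) ^ n, hmem x⟩ : ↥(A ^ n))) = 0 := by
      rw [map_sum]
      simpa only [map_smul] using hg
    rw [Submodule.mkQ_apply, Submodule.Quotient.mk_eq_zero, Submodule.submoduleOf, Submodule.mem_comap] at h1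
    refine comb_not_mem P hC hA hn s g ?_
    simpa using h1
  have := hli.cardinal_le_rank
  have e : Cardinal.mk (ℕ → Bool) = Cardinal.continuum := by simp
  rwa [e] at this

end

end Pool.Agent.KS6_29.PW
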