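import Pool.Graph.R_seed8.W700.PS.Fin

/-!
Weyl type numbers of elements of the powers of an algebra of operators all of whose elements are
2-summing.
-/

set_option autoImplicit false

namespace Pool.Agent.KS6_29.PW

open W700.PS

section
variable {E : Type} [NormedAddCommGroup E] [NormedSpace ℂ E]

/-- Weyl numbers of `u` decay like `D / √(k+1)^m`, with `k` replaced by `c k + R`. -/
def WD (m c R : ℕ) (D : ℝ) (u : E →L[ℂ] E) : Prop :=
  ∀ (k : ℕ) (δ : ℝ), D / Real.sqrt (k + 1) ^ m < δ → Sn (c * k + R) δ u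

theorem Sn.mono {k l : ℕ} {δ δ' : ℝ} {u : E →L[ℂ] E} (h : Sn k δ u) (hkl : k ≤ l) (hδ : δ ≤ δ') :
    Sn l δ' u := by
  intro H _ _ _ B hB
  obtain ⟨V, hV, hVb⟩ := h H B hB
  exact ⟨V, by omega, fun x hx => (hVb x hx).trans (mul_le_mul_of_nonneg_right hδ (norm_nonneg _))⟩

theorem Sn_zero (k : ℕ) : Sn k 0 (0 : E →L[ℂ] E) := by
  intro H _ _ _ B hB
  refine ⟨⊤, by simp, fun x _ => by simp⟩

theorem Sn_rank_one (f : E →L[ℂ] ℂ) (y : E) : Sn 1 0 (f.smulRight y : E →L[ℂ] E) := by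
  intro H _ _ _ B hB
  refine ⟨LinearMap.ker ((f : E →ₗ[ℂ] ℂ) ∘ₗ B), ?_, ?_⟩
  · have h1 := LinearMap.finrank_range_add_finrank_ker ((f : E →ₗ[ℂ] ℂ) ∘ₗ B)
    have h2 : Module.finrank ℂ (LinearMap.range ((f : E →ₗ[ℂ] ℂ) ∘ₗ B)) ≤ 1 := by
      refine (Submodule.finrank_le _).trans ?_
      simp
    omega
  · intro x hx
    have h3 : f (B x) = 0 := hx
    simp [h3]

theorem Sn_smul {k : ℕ} {u : E →L[ℂ] E} (r : ℂ) (h : Sn k 0 u) : Sn k 0 (r • u) := by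
  intro H _ _ _ B hB
  obtain ⟨V, hV, hVb⟩ := h H B hB
  refine ⟨V, hV, fun x hx => ?_⟩
  have h1 := hVb x hx
  rw [zero_mul] at h1
  have h2 : u (B x) = 0 := norm_le_zero_iff.mp h1
  simp [h2]

/-- finite rank operators -/
theorem exists_Sn_of_FRk {r : E →L[ℂ] E} (hr : r ∈ FRk E) : ∃ R : ℕ, Sn R 0 r := by
  unfold FRk at hr
  induction hr using Submodule.span_induction with
  | mem a ha =>
    obtain ⟨f, x, rfl⟩ := ha
    exact ⟨1, Sn_rank_one f x⟩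
  | zero => exact ⟨0, Sn_zero 0⟩
  | add a b _ _ ha hb =>
    obtain ⟨k, hk⟩ := ha
    obtain ⟨l, hl⟩ := hb
    refine ⟨k + l, ?_⟩
    have := Pool.Agent.W347.PS.T2.t2c E a b k l 0 0 hk hl
    rwa [add_zero] at this
  | smul r a _ ha =>
    obtain ⟨k, hk⟩ := ha
    exact ⟨k, Sn_smul r hk⟩

/-- the non-strict form -/
def WN (m c : ℕ) (D : ℝ) (u : E →L[ℂ] E) : Prop :=
  ∀ k : ℕ, Sn (c * k) (D / Real.sqrt (k + 1) ^ m) u

theorem exists_WN (A : Submodule ℂ (E →L[ℂ] E)) (C : ℝ) (hC : 0 ≤ C)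
    (hA : ∀ a ∈ A, PiB (C * ‖a‖) a) (n : ℕ) :
    ∀ u ∈ A ^ (n + 1), ∃ (c : ℕ) (D : ℝ), 0 ≤ D ∧ WN (n + 1) c D u := by
  have h1 : ∀ a ∈ A, ∀ k : ℕ, Sn k ((C * ‖a‖) / Real.sqrt (k + 1)) a := fun a ha k =>
    Pool.Agent.W347.PS.T2.t2a E a (C * ‖a‖) (by positivity) (hA a ha) k
  induction n with
  | zero =>
    intro u hu
    rw [zero_add, Submodule.pow_one] at hu
    refine ⟨1, C * ‖u‖, by positivity, fun k => ?_⟩
    rw [one_mul, zero_add, pow_one]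
    exact h1 u hu k
  | succ n ih =>
    intro u hu
    rw [Submodule.pow_succ] at hu
    refine Submodule.mul_induction_on hu ?_ ?_
    · intro x hx a ha
      obtain ⟨c, D, hD, h⟩ := ih x hx
      refine ⟨c + 1, D * (C * ‖a‖), by positivity, fun k => ?_⟩
      have h2 := Pool.Agent.W347.PS.T2.t2b E x a (c * k) k _ _ (by positivity) (by positivity)
        (h k) (h1 a ha k)
      have e1 : (c + 1) * k = c * k + k := by ring
      have e2 : D * (C * ‖a‖) / Real.sqrt (k + 1) ^ (n + 1 + 1) =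
          D / Real.sqrt (k + 1) ^ (n + 1) * (C * ‖a‖ / Real.sqrt (k + 1)) := by
        rw [pow_succ, div_mul_div_comm]
      rw [e1, e2]
      exact h2
    · rintro x y ⟨c, D, hD, hx⟩ ⟨c', D', hD', hy⟩
      refine ⟨c + c', D + D', by positivity, fun k => ?_⟩
      have h2 := Pool.Agent.W347.PS.T2.t2c E x y (c * k) (c' * k) _ _ (hx k) (hy k)
      have e1 : (c + c') * k = c * k + c' * k := by ring
      rw [e1, add_div]
      exact h2

theorem exists_WD (A : Submodule ℂ (E →L[ℂ] E)) (C : ℝ) (hC : 0 ≤ C)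
    (hA : ∀ a ∈ A, PiB (C * ‖a‖) a) (n : ℕ) (u : E →L[ℂ] E) (hu : u ∈ A ^ (n + 1)) :
    ∃ c D : ℕ, WD (n + 1) c 0 D u := by
  obtain ⟨c, D, hD, h⟩ := exists_WN A C hC hA n u hu
  obtain ⟨N, hN⟩ := exists_nat_ge D
  refine ⟨c, N, fun k δ hδ => ?_⟩
  refine Sn.mono (h k) le_rfl (le_trans ?_ hδ.le)
  gcongr

/-- the set of `u` with `WD` is closed -/
theorem isClosed_WD (m c R : ℕ) (D : ℝ) : IsClosed {u : E →L[ℂ] E | WD m c R D u} := by
  rw [← isSeqClosed_iff_isClosed]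
  intro u v hu hv k δ hδ
  set δ₀ := (D / Real.sqrt (k + 1) ^ m + δ) / 2 with hδ₀
  have h1 : D / Real.sqrt (k + 1) ^ m < δ₀ := by rw [hδ₀]; linarith
  have h2 : δ₀ < δ := by rw [hδ₀]; linarith
  obtain ⟨i, hi⟩ : ∃ i, ‖v - u i‖ < δ - δ₀ := by
    have := (Metric.tendsto_atTop.1 hv) (δ - δ₀) (by linarith)
    obtain ⟨i, hi⟩ := this
    refine ⟨i, ?_⟩
    have := hi i le_rfl
    rwa [dist_eq_norm, norm_sub_rev] at this
  intro H _ _ _ B hB
  obtain ⟨V, hV, hVb⟩ := hu i k δ₀ h1 H B hB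
  refine ⟨V, hV, fun x hx => ?_⟩
  have e1 : v (B x) = u i (B x) + (v - u i) (B x) := by simp
  rw [e1]
  have h3 : ‖(v - u i) (B x)‖ ≤ (δ - δ₀) * ‖x‖ := by
    refine ((v - u i).le_opNorm _).trans ?_
    exact mul_le_mul hi.le (hB x) (norm_nonneg _) (by linarith)
  calc _ ≤ ‖u i (B x)‖ + ‖(v - u i) (B x)‖ := norm_add_le _ _
    _ ≤ δ₀ * ‖x‖ + (δ - δ₀) * ‖x‖ := add_le_add (hVb x hx) h3
    _ = δ * ‖x‖ := by ring

/-- finite rank perturbations -/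
theorem WD.add_fr {m c : ℕ} {D : ℝ} {u r : E →L[ℂ] E} (hu : WD m c 0 D u) {R : ℕ}
    (hr : Sn R 0 r) : WD m c R D (u + r) := by
  intro k δ hδ
  have h1 := Pool.Agent.W347.PS.T2.t2c E u r (c * k + 0) R δ 0 (hu k δ hδ) hr
  rw [add_zero, add_zero] at h1
  exact h1

/-- lower bound from a block on which `u` acts as a scalar -/
theorem scalar_le {K : ℕ} {δ : ℝ} {u : E →L[ℂ] E} (hu : Sn K δ u) {N : ℕ} (hK : K < N)
    (B : EuclideanSpace ℂ (Fin N) →ₗ[ℂ] E) (hB : ∀ x, ‖B x‖ = ‖x‖) (μ : ℂ)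
    (hμ : ∀ x, u (B x) = μ • B x) : ‖μ‖ ≤ δ := by
  obtain ⟨V, hV, hVb⟩ := hu (EuclideanSpace ℂ (Fin N)) B (fun x => (hB x).le)
  have h1 : 0 < Module.finrank ℂ V := by
    have : Module.finrank ℂ (EuclideanSpace ℂ (Fin N)) = N := by simp
    omega
  obtain ⟨x, hx⟩ : ∃ x : V, x ≠ 0 := by
    have : Nontrivial V := Module.nontrivial_of_finrank_pos h1
    exact exists_ne 0
  have h2 := hVb x x.2
  rw [hμ, norm_smul, hB] at h2
  have h3 : 0 < ‖(x : EuclideanSpace ℂ (Fin N))‖ := by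
    rw [norm_pos_iff]
    intro h
    exact hx (Subtype.ext h)
  exact le_of_mul_le_mul_right h2 h3

end

end Pool.Agent.KS6_29.PW
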